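import Pool.Agent.helper15.LC.Spec

set_option autoImplicit false

open Finset Filter Topology CU

namespace CO

private theorem CNW_sg (b : Bool) : |sg b| = 1 := by
  unfold sg
  cases b
  · rw [if_neg (by decide), abs_neg, abs_one]
  · rw [if_pos rfl, abs_one]

private theorem CNW_energy {d n : ℕ} [NeZero n] (b b' b₁ : ℝ) (R : Finset (Site d n)) (h : b' ≤ b)
    (σ : Conf d n) :
    |CWM.HH (KW b b₁ R) (fun _ => 0) σ - CWM.HH (KW b' b₁ R) (fun _ => 0) σ| ≤
      (b - b') * (d * (R.card : ℝ)) := by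
  have h0 : (0 : ℝ) ≤ b - b' := sub_nonneg.2 h
  have h1 : CWM.HH (KW b b₁ R) (fun _ => 0) σ - CWM.HH (KW b' b₁ R) (fun _ => 0) σ =
      ∑ x, ∑ y, (KW b b₁ R x y - KW b' b₁ R x y) * (sg (σ x) * sg (σ y)) := by
    unfold CWM.HH
    rw [add_sub_add_right_eq_sub, ← sum_sub_distrib]
    refine sum_congr rfl fun x _ => ?_
    rw [← sum_sub_distrib]
    exact sum_congr rfl fun y _ => (sub_mul _ _ _).symm
  rw [h1]
  have h2 : ∀ x y : Site d n, |(KW b b₁ R x y - KW b' b₁ R x y) * (sg (σ x) * sg (σ y))| ≤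
      if x ∈ R then (b - b') * (∑ i : Fin d, if y = x + ev i then (1 : ℝ) else 0) else 0 := by
    intro x y
    rw [abs_mul, abs_mul, CNW_sg, CNW_sg, mul_one, mul_one]
    have h3 : (0 : ℝ) ≤ ∑ i : Fin d, if y = x + ev i then (1 : ℝ) else 0 :=
      sum_nonneg fun i _ => by split_ifs <;> norm_num
    unfold KW
    by_cases hx : x ∈ R
    · rw [if_pos hx]
      by_cases hy : y ∈ R
      · rw [if_pos ⟨hx, hy⟩, if_pos ⟨hx, hy⟩]
        unfold KT
        rw [add_sub_add_right_eq_sub, ← sub_mul, abs_of_nonneg (mul_nonneg h0 h3)]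
      · rw [if_neg fun h => hy h.2, if_neg fun h => hy h.2, sub_self, abs_zero]
        exact mul_nonneg h0 h3
    · rw [if_neg hx, if_neg fun h => hx h.1, if_neg fun h => hx h.1, sub_self, abs_zero]
  have h4 : ∀ x : Site d n, ∑ y : Site d n, (if x ∈ R then
      (b - b') * (∑ i : Fin d, if y = x + ev i then (1 : ℝ) else 0) else 0) =
      if x ∈ R then (b - b') * d else 0 := by
    intro x
    split_ifs with hx
    · rw [← mul_sum, sum_comm]
      have h5 : ∀ i : Fin d, ∑ y : Site d n, (if y = x + ev i then (1 : ℝ) else 0) = 1 := by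
        intro i
        rw [sum_ite_eq', if_pos (mem_univ _)]
      rw [sum_congr rfl fun i _ => h5 i, sum_const, card_univ, Fintype.card_fin, nsmul_eq_mul,
        mul_one]
    · exact sum_const_zero
  calc |∑ x, ∑ y, (KW b b₁ R x y - KW b' b₁ R x y) * (sg (σ x) * sg (σ y))|
      ≤ ∑ x, ∑ y, |(KW b b₁ R x y - KW b' b₁ R x y) * (sg (σ x) * sg (σ y))| :=
        (abs_sum_le_sum_abs _ _).trans (sum_le_sum fun x _ => abs_sum_le_sum_abs _ _)
    _ ≤ ∑ x, ∑ y, (if x ∈ R then
        (b - b') * (∑ i : Fin d, if y = x + ev i then (1 : ℝ) else 0) else 0) :=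
        sum_le_sum fun x _ => sum_le_sum fun y _ => h2 x y
    _ = ∑ x : Site d n, (if x ∈ R then (b - b') * d else 0) := sum_congr rfl fun x _ => h4 x
    _ = (b - b') * (d * (R.card : ℝ)) := by
        rw [sum_ite_mem, univ_inter, sum_const, nsmul_eq_mul]
        ring

theorem CNW (hPTB : PTB_stmt) (hBC : CU.BC_stmt) : CNW_stmt := by
  intro d L b b₁ ε _ hb hε
  set D : ℝ := d * (2 * (L : ℝ) + 1) ^ d with hD
  have hD0 : 0 ≤ D := by positivity
  have hl : 0 < Real.log (1 + ε / 2) := Real.log_pos (by linarith)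
  set δ : ℝ := min ((b - b₁) / 2) (Real.log (1 + ε / 2) / (2 * D + 1)) with hδ
  have hδ0 : 0 < δ := lt_min (by linarith) (div_pos hl (by linarith))
  have hδ1 : δ ≤ (b - b₁) / 2 := min_le_left _ _
  have hδ2 : δ ≤ Real.log (1 + ε / 2) / (2 * D + 1) := min_le_right _ _
  refine ⟨b - δ, by linarith, by linarith, fun M n => ?_⟩
  have hρ : 2 * (δ * D) ≤ Real.log (1 + ε / 2) := by
    rw [le_div_iff₀ (by linarith)] at hδ2
    nlinarith
  have hexp : 2 * (Real.exp (2 * (δ * D)) - 1) ≤ ε := by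
    have h1 : Real.exp (2 * (δ * D)) ≤ 1 + ε / 2 := by
      have h2 := Real.exp_le_exp.2 hρ
      rwa [Real.exp_log (by linarith)] at h2
    linarith
  set R : Finset (Site d (n + 3)) := Box L (0 : Site d (n + 3)) with hR
  set A : Finset (Site d (n + 3)) := univ \ Box M 0 with hA
  have hcard : (d : ℝ) * (R.card : ℝ) ≤ D := by
    rw [hD]
    refine mul_le_mul_of_nonneg_left ?_ (by positivity)
    have h1 := hBC d (n + 3) L (0 : Site d (n + 3))
    rw [hR]
    calc ((Box L (0 : Site d (n + 3))).card : ℝ) ≤ (((2 * L + 1) ^ d : ℕ) : ℝ) := by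
          exact_mod_cast h1
      _ = (2 * (L : ℝ) + 1) ^ d := by push_cast; ring
  have hne : (pl A).Nonempty := ⟨fun _ => true, by
    unfold pl
    rw [mem_filter]
    exact ⟨mem_univ _, fun _ _ => rfl⟩⟩
  have key := hPTB (Conf d (n + 3)) (pl A)
    (fun σ => Real.exp (CWM.HH (KW (b - δ) b₁ R) (fun _ => 0) σ))
    (fun σ => CWM.HH (KW b b₁ R) (fun _ => 0) σ - CWM.HH (KW (b - δ) b₁ R) (fun _ => 0) σ)
    (fun σ => sg (σ 0)) 0 (δ * D) hne (fun σ => Real.exp_pos _) (fun σ _ => (CNW_sg _).le) (by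
      intro σ _
      rw [sub_zero]
      refine (CNW_energy b (b - δ) b₁ R (by linarith) σ).trans ?_
      rw [sub_sub_cancel]
      exact mul_le_mul_of_nonneg_left hcard hδ0.le)
  have he : ∀ σ : Conf d (n + 3), Real.exp (CWM.HH (KW (b - δ) b₁ R) (fun _ => 0) σ) *
      Real.exp (CWM.HH (KW b b₁ R) (fun _ => 0) σ - CWM.HH (KW (b - δ) b₁ R) (fun _ => 0) σ) =
      Real.exp (CWM.HH (KW b b₁ R) (fun _ => 0) σ) := by
    intro σ
    rw [← Real.exp_add, add_sub_cancel]
  simp only [he] at key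
  unfold exA
  linarith

end CO
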