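import Pool.Agent.helper15.LC.Spec

set_option autoImplicit false

open Finset Filter Topology CU

namespace CO

theorem RS2 (hRES : RES_stmt) (hLCT : LCT_stmt) (hMSP : MSP_stmt) (hVH : CU.VH_stmt) : RS2_stmt := by
  intro d β₁ β hd h0 h1 hG
  obtain ⟨μ, ν, hμ, hν, hne⟩ := hG
  have hS : SpontMag d β₁ := hVH d β₁ h0 μ ν hμ hν hne
  have hms : 0 < ms d β₁ := (hMSP d).2.2.2 β₁ h0 hS
  have hLC : LC d β := hLCT d β₁ β (by omega) h0 h1 hms
  exact (hRES d hd).1 β₁ β h0 h1 ⟨μ, ν, hμ, hν, hne⟩ hLC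

end CO
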