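import Pool.Agent.helper15.LC.Spec

set_option autoImplicit false

open Finset Filter Topology CU

namespace CO

/-- translation of the configurations by `a` -/
private def TRX_eq {d n : ℕ} (a : Site d n) : Conf d n ≃ Conf d n where
  toFun σ := fun x => σ (x - a)
  invFun σ := fun x => σ (x + a)
  left_inv σ := funext fun x => by
    show σ (x + a - a) = σ x
    rw [add_sub_cancel_right]
  right_inv σ := funext fun x => by
    show σ (x - a + a) = σ x
    rw [sub_add_cancel]

private theorem TRX_HH {d n : ℕ} [NeZero n] (a : Site d n) (K K' : Site d n → Site d n → ℝ) (h : ℝ)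
    (hK : ∀ x y, K' (x + a) (y + a) = K x y) (σ : Conf d n) :
    CWM.HH K' (fun _ => h) (TRX_eq a σ) = CWM.HH K (fun _ => h) σ := by
  unfold CWM.HH
  have hv : ∀ x : Site d n, TRX_eq a σ (x + a) = σ x := by
    intro x
    show σ (x + a - a) = σ x
    rw [add_sub_cancel_right]
  congr 1
  · rw [← Equiv.sum_comp (Equiv.addRight a)]
    refine sum_congr rfl fun x _ => ?_
    rw [← Equiv.sum_comp (Equiv.addRight a)]
    refine sum_congr rfl fun y _ => ?_
    rw [Equiv.coe_addRight]
    show K' (x + a) (y + a) * (CU.sg (TRX_eq a σ (x + a)) * CU.sg (TRX_eq a σ (y + a))) = _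
    rw [hv, hv, hK]
  · rw [← Equiv.sum_comp (Equiv.addRight a)]
    refine sum_congr rfl fun x _ => ?_
    rw [Equiv.coe_addRight]
    show h * CU.sg (TRX_eq a σ (x + a)) = _
    rw [hv]

theorem TRX : TRX_stmt := by
  intro d n _ a K K' h A A' f hK hA
  have hpl : ∀ σ : Conf d n, σ ∈ pl A ↔ TRX_eq a σ ∈ pl A' := by
    intro σ
    unfold pl
    rw [mem_filter, mem_filter]
    constructor
    · rintro ⟨-, h1⟩
      refine ⟨mem_univ _, fun x hx => ?_⟩
      refine h1 (x - a) ((hA (x - a)).1 ?_)
      rwa [sub_add_cancel]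
    · rintro ⟨-, h1⟩
      refine ⟨mem_univ _, fun x hx => ?_⟩
      have h2 := h1 (x + a) ((hA x).2 hx)
      have h3 : TRX_eq a σ (x + a) = σ x := by
        show σ (x + a - a) = σ x
        rw [add_sub_cancel_right]
      rwa [h3] at h2
  constructor
  · unfold exA
    congr 1
    · symm
      refine sum_equiv (TRX_eq a) hpl fun σ _ => ?_
      rw [TRX_HH a K K' h hK σ]
      rfl
    · symm
      refine sum_equiv (TRX_eq a) hpl fun σ _ => ?_
      rw [TRX_HH a K K' h hK σ]
  · unfold ex
    congr 1
    · symm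
      refine Fintype.sum_equiv (TRX_eq a) _ _ fun σ => ?_
      rw [TRX_HH a K K' h hK σ]
      rfl
    · symm
      refine Fintype.sum_equiv (TRX_eq a) _ _ fun σ => ?_
      rw [TRX_HH a K K' h hK σ]

end CO
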