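import Pool.Agent.helper75.LC.Spec
import Pool.Agent.helper81.MX.D08
import Pool.Agent.helper81.MX.A21

/-! ROW lc:STD (helper92). -/

set_option autoImplicit false

namespace Pool.Agent.LC

open MX MG

open scoped MatrixGroups

theorem STD (hEV2 : EV2_stmt) (hAL5 : AL5_stmt) (hCYC : CYC_stmt) : STD_stmt := by
  intro A W _ _ _ _ _ L hL hirr hf p _ hp
  obtain ⟨q, hq, hq5, e, he, heL⟩ := Std_embed L hL
  have : Fact q.Prime := ⟨hq⟩
  by_cases h2 : p = 2
  · subst h2
    have hle : PS q ≤ e.range := by
      rw [← heL]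
      exact Subgroup.map_le_range e L
    by_cases h5 : q ≠ 5 ∨ e.range ≠ PS q
    · exact hEV2 A W hirr hf hp (D08_even (MonoidHom.ofInjective he) (even_PS hq5 e.range hle h5))
    · have h6 : q = 5 := by
        by_contra h
        exact h5 (Or.inl h)
      have h7 : e.range = PS q := by
        by_contra h
        exact h5 (Or.inr h)
      exact hAL5 A W hirr hf hp
        (D08_alt ((MonoidHom.ofInjective he).trans (MulEquiv.subgroupCongr h7)) (alt5_PS q h6))
  · have hLn : L.Normal := hL.1
    have hne : ∃ a : A, a ≠ 1 ∧ a ∈ L := by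
      obtain ⟨-, -, -, -, -, -, ⟨a, ha, b, hb, hab⟩, -⟩ := PS_basic (p := q) hq5
      have ha' : a ∈ L.map e := by rw [heL]; exact ha
      obtain ⟨a', ha'', rfl⟩ := ha'
      refine ⟨a', ?_, ha''⟩
      rintro rfl
      apply hab
      rw [map_one, one_mul, mul_one]
    obtain ⟨P⟩ := (inferInstance : Nonempty (Sylow p L))
    have hi : Function.Injective (e.comp L.subtype) := he.comp L.subtype_injective
    have h3 : IsPGroup p ((P : Subgroup L).map (e.comp L.subtype)) := P.2.map _
    have h4 : IsCyclic ((P : Subgroup L).map (e.comp L.subtype)) := odd_cyclic hq5 p h2 _ h3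
    have h5 : IsCyclic (P : Subgroup L) :=
      isCyclic_of_injective ((P : Subgroup L).equivMapOfInjective (e.comp L.subtype) hi).toMonoidHom
        ((P : Subgroup L).equivMapOfInjective (e.comp L.subtype) hi).injective
    obtain ⟨x, hx⟩ := h5.exists_generator
    have h6 : Subgroup.zpowers (x : L) = (P : Subgroup L) := by
      apply le_antisymm
      · rw [Subgroup.zpowers_le]
        exact x.2
      · intro y hy
        obtain ⟨k, hk⟩ := Subgroup.mem_zpowers_iff.1 (hx ⟨y, hy⟩)
        refine Subgroup.mem_zpowers_iff.2 ⟨k, ?_⟩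
        have := congrArg Subtype.val hk
        simpa using this
    refine hCYC A W p hp hirr.1 L hLn (A21_fix hirr hf L hne) (x : L) ?_ ?_
    · obtain ⟨k, hk⟩ := P.2 x
      refine ⟨k, ?_⟩
      have := congrArg Subtype.val hk
      simpa using this
    · rw [h6]
      exact P.not_dvd_index

end Pool.Agent.LC
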